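import Mathlib

namespace Pool.Agent.Results.MP_c360fa_mp.FiniteH

open MvPolynomial

/-- Differential polynomials `ℝ[u_0,u_1,…]`; `X i` is `u_i`. -/
abbrev A := MvPolynomial ℕ ℝ

/-- The derivation `d` with `d u_i = u_{i+1}`. -/
noncomputable def d : Derivation ℝ A A := mkDerivation ℝ (fun i => X (i + 1))

/-- The second product `f * g = ∑ (f_i d^i g + (-d)^i (f g_i))`. -/
noncomputable def star (f g : A) : A :=
  ∑ᶠ i : ℕ, (pderiv i f * d^[i] g + (-1) ^ i * d^[i] (f * pderiv i g))

lemma d_X (i : ℕ) : d (X i) = X (i + 1) := by simp [d]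

lemma pderiv_d (k : ℕ) (p : A) : pderiv (k + 1) (d p) = d (pderiv (k + 1) p) + pderiv k p := by
  have h : ⁅(pderiv (k + 1) : Derivation ℝ A A), d⁆ = pderiv k := by
    apply derivation_ext
    intro i
    rw [Derivation.commutator_apply, d_X]
    by_cases h : i = k
    · subst h; simp [pderiv_X]
    · simp only [pderiv_X, Pi.single_apply]
      by_cases h2 : i = k + 1 <;> simp [h2, h]
  have := congrArg (fun D : Derivation ℝ A A => D p) h
  simp only [Derivation.commutator_apply] at this
  rw [← this]; ring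

lemma pderiv_zero_d (p : A) : pderiv 0 (d p) = d (pderiv 0 p) := by
  have h : ⁅(pderiv 0 : Derivation ℝ A A), d⁆ = 0 := by
    apply derivation_ext
    intro i
    rw [Derivation.commutator_apply, d_X]
    by_cases h : i = 0
    · subst h; simp [pderiv_X]
    · simp [pderiv_X, h]
  have := congrArg (fun D : Derivation ℝ A A => D p) h
  simp only [Derivation.commutator_apply] at this
  rw [← sub_eq_zero]; simpa using this

/-- `OrdLE n f`: `f` only involves `u_0, …, u_n`. -/
def OrdLE (n : ℕ) (f : A) : Prop := ∀ i, n < i → pderiv i f = 0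

lemma mem_vars_iff_pderiv (i : ℕ) (f : A) : i ∈ f.vars ↔ pderiv i f ≠ 0 := by
  constructor
  · intro h h0
    rw [mem_vars_iff_mem_support] at h
    obtain ⟨m, hm, hi⟩ := h
    have hmi : m i ≠ 0 := by simpa using hi
    have hc := coeff_pderiv (i := i) f (m - Finsupp.single i 1)
    have hs : m - Finsupp.single i 1 + Finsupp.single i 1 = m := by
      ext j
      by_cases hj : j = i
      · subst hj; simp; omega
      · simp [Ne.symm hj]
    rw [hs, h0, coeff_zero] at hc
    have h2 : coeff m f ≠ 0 := by simpa using hm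
    have h3 : (((m - Finsupp.single i 1 : ℕ →₀ ℕ) i : ℝ) + 1) ≠ 0 := by positivity
    exact (mul_ne_zero h2 h3) hc.symm
  · intro h
    by_contra h'
    exact h (pderiv_eq_zero_of_notMem_vars h')

lemma ordLE_iff (n : ℕ) (f : A) : OrdLE n f ↔ f ∈ supported ℝ {i | i ≤ n} := by
  rw [mem_supported]
  constructor
  · intro h i hi
    rw [Finset.mem_coe, mem_vars_iff_pderiv] at hi
    by_contra h2
    exact hi (h i (by simpa using h2))
  · intro h i hi
    by_contra h2
    have h3 := (mem_vars_iff_pderiv i f).2 h2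
    have := h h3
    simp at this
    omega

lemma exists_ordLE (f : A) : ∃ n, OrdLE n f := by
  obtain ⟨n, hn⟩ := f.vars.exists_nat_subset_range
  refine ⟨n, fun i hi => ?_⟩
  apply pderiv_eq_zero_of_notMem_vars
  intro h
  have := hn h
  simp at this
  omega

lemma eq_C_of_pderiv (f : A) (h : ∀ i, pderiv i f = 0) : f = C (constantCoeff f) := by
  have h1 : f.vars = ∅ := by
    ext i
    simp [mem_vars_iff_pderiv, h i]
  rw [vars_eq_empty_iff_eq_C] at h1
  simpa [constantCoeff_eq] using h1

lemma eq_C_of_d (f : A) (h : d f = 0) : f = C (constantCoeff f) := by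
  apply eq_C_of_pderiv
  obtain ⟨n, hn⟩ := exists_ordLE f
  have key : ∀ k, ∀ i, n < i + k → pderiv i f = 0 := by
    intro k
    induction k with
    | zero => intro i hi; exact hn i (by omega)
    | succ k ih =>
      intro i hi
      have h1 := pderiv_d i f
      rw [h, ih (i + 1) (by omega)] at h1
      simpa using h1.symm
  intro i
  exact key (n + 1) i (by omega)


/-- the flow `u_t = u_3 + u_1^4` -/
noncomputable def g : A := X 3 + X 1 ^ 4

/-- `∂ g / ∂ u_1` -/
noncomputable def h : A := C 4 * X 1 ^ 3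

/-- the evolutionary derivation along `g` -/
noncomputable def Xg : Derivation ℝ A A := mkDerivation ℝ (fun i => d^[i] g)

lemma Xg_X (i : ℕ) : Xg (X i) = d^[i] g := by simp [Xg]

lemma C4 : (C 4 : A) = 4 := map_ofNat C 4

lemma pderiv_g (i : ℕ) : pderiv i g = if i = 3 then 1 else if i = 1 then h else 0 := by
  simp only [g, h, map_add, pderiv_X, Derivation.leibniz_pow]
  by_cases h3 : i = 3
  · subst h3; simp
  · by_cases h1 : i = 1
    · subst h1; simp [C4]
    · simp [h3, h1, Ne.symm h3, Ne.symm h1]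

lemma pderiv_h_one : pderiv 1 h = C 12 * X 1 ^ 2 := by
  simp only [h, Derivation.leibniz, Derivation.leibniz_pow, pderiv_X_self, smul_eq_mul, pderiv_C]
  simp only [map_ofNat, nsmul_eq_mul]
  push_cast
  ring

lemma pderiv_h_of_ne (i : ℕ) (hi : i ≠ 1) : pderiv i h = 0 := by
  simp only [h, Derivation.leibniz, Derivation.leibniz_pow, pderiv_X_of_ne (Ne.symm hi), pderiv_C]
  simp

lemma der_sum_apply {ι : Type} (s : Finset ι) (D : ι → Derivation ℝ A A) (f : A) :
    (∑ i ∈ s, D i) f = ∑ i ∈ s, D i f := by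
  classical
  induction s using Finset.induction_on with
  | empty => simp
  | insert a s ha ih => rw [Finset.sum_insert ha, Finset.sum_insert ha, Derivation.add_apply, ih]

lemma Xg_eq_sum (n : ℕ) (f : A) (hf : OrdLE n f) :
    Xg f = ∑ i ∈ Finset.range (n + 1), pderiv i f * d^[i] g := by
  have h1 : Xg f = (∑ i ∈ Finset.range (n + 1), (d^[i] g) • (pderiv i : Derivation ℝ A A)) f := by
    apply derivation_eqOn_supported (s := {i | i ≤ n}) _ ((ordLE_iff n f).1 hf)
    intro i hi
    simp only [Function.comp, Xg_X]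
    rw [der_sum_apply]
    simp only [Derivation.smul_apply, smul_eq_mul, pderiv_X, Pi.single_apply]
    rw [Finset.sum_eq_single i]
    · simp
    · intro j _ hj
      simp [Ne.symm hj]
    · intro hi2
      simp at hi hi2
      omega
  rw [h1, der_sum_apply]
  apply Finset.sum_congr rfl
  intro i _
  simp [mul_comm]

lemma OrdLE.mono {n m : ℕ} {f : A} (hf : OrdLE n f) (hnm : n ≤ m) : OrdLE m f :=
  fun i hi => hf i (by omega)

lemma iter_d_zero (i : ℕ) : d^[i] (0 : A) = 0 := by
  induction i with
  | zero => rfl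
  | succ i ih => rw [Function.iterate_succ_apply', ih, map_zero]

lemma star_support (f g' : A) (n : ℕ) (hf : OrdLE n f) (hg : OrdLE n g') :
    star f g' = ∑ i ∈ Finset.range (n + 1),
      (pderiv i f * d^[i] g' + (-1) ^ i * d^[i] (f * pderiv i g')) := by
  unfold star
  apply finsum_eq_sum_of_support_subset
  intro i hi
  rw [Function.mem_support] at hi
  by_contra h2
  apply hi
  have h3 : n < i := by
    simp at h2; omega
  rw [hf i h3, hg i h3, mul_zero, iter_d_zero]
  simp

lemma ordLE_g : OrdLE 3 g := by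
  intro i hi
  rw [pderiv_g]
  have h1 : i ≠ 3 := by omega
  have h2 : i ≠ 1 := by omega
  simp [h1, h2]

/-- the cosymmetry equation written out -/
lemma star_g (f : A) : star f g = Xg f - d (d (d f)) - d (h * f) := by
  obtain ⟨n, hn⟩ := exists_ordLE f
  have hn' : OrdLE (n + 3) f := hn.mono (by omega)
  rw [star_support f g (n + 3) hn' (ordLE_g.mono (by omega)), Finset.sum_add_distrib,
    ← Xg_eq_sum (n + 3) f hn']
  have h2 : ∑ i ∈ Finset.range (n + 3 + 1), (-1) ^ i * d^[i] (f * pderiv i g)
      = - d (d (d f)) - d (h * f) := by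
    rw [show n + 3 + 1 = 4 + n by ring, Finset.sum_range_add]
    have h3 : ∑ x ∈ Finset.range n, (-1) ^ (4 + x) * d^[4 + x] (f * pderiv (4 + x) g) = 0 := by
      apply Finset.sum_eq_zero
      intro x _
      rw [pderiv_g]
      have h1 : 4 + x ≠ 3 := by omega
      have h2 : 4 + x ≠ 1 := by omega
      simp only [h1, h2, if_false, mul_zero, iter_d_zero]
    rw [h3]
    simp only [Finset.sum_range_succ, Finset.sum_range_zero, pderiv_g]
    simp
    ring_nf
  rw [h2]
  ring

lemma pderiv_iter_zero (i : ℕ) : pderiv 0 (d^[i] (X 1 ^ 4 : A)) = 0 := by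
  induction i with
  | zero => simp [Derivation.leibniz_pow]
  | succ i ih => rw [Function.iterate_succ_apply', pderiv_zero_d, ih, map_zero]

lemma pderiv_iter (i k : ℕ) :
    pderiv (k + 1) (d^[i] (X 1 ^ 4 : A)) = (i.choose k : A) * d^[i - k] h := by
  induction i generalizing k with
  | zero =>
    rcases k with _ | k
    · simp [Derivation.leibniz_pow, h, C4]
    · simp [Derivation.leibniz_pow]
  | succ i ih =>
    rw [Function.iterate_succ_apply', pderiv_d, ih k]
    rcases k with _ | k
    · rw [pderiv_iter_zero]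
      simp only [Nat.choose_zero_right, Nat.sub_zero, Nat.cast_one, one_mul, add_zero]
      rw [Function.iterate_succ_apply']
    · rw [ih k]
      simp only [Derivation.leibniz, Derivation.map_natCast, smul_eq_mul]
      rw [← Function.iterate_succ_apply' (f := d)]
      by_cases hk : k < i
      · rw [show (i - (k + 1)).succ = i - k by omega, show i + 1 - (k + 1) = i - k by omega,
          Nat.choose_succ_succ]
        push_cast
        ring
      · by_cases hk2 : k = i
        · subst hk2
          simp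
        · rw [Nat.choose_eq_zero_of_lt (show i < k + 1 by omega),
            Nat.choose_eq_zero_of_lt (show i < k by omega),
            Nat.choose_eq_zero_of_lt (show i + 1 < k + 1 by omega)]
          simp

lemma iter_d_add (i : ℕ) (p q : A) : d^[i] (p + q) = d^[i] p + d^[i] q := by
  induction i generalizing p q with
  | zero => rfl
  | succ i ih => simp only [Function.iterate_succ_apply, map_add, ih]

lemma iter_d_X (i j : ℕ) : d^[i] (X j : A) = X (j + i) := by
  induction i generalizing j with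
  | zero => rfl
  | succ i ih => rw [Function.iterate_succ_apply, d_X, ih]; congr 1; omega


lemma pderiv_comm (i j : ℕ) (f : A) : pderiv i (pderiv j f) = pderiv j (pderiv i f) := by
  have h : ⁅(pderiv i : Derivation ℝ A A), (pderiv j : Derivation ℝ A A)⁆ = 0 := by
    apply derivation_ext
    intro k
    rw [Derivation.commutator_apply]
    simp only [pderiv_X, Pi.single_apply]
    split_ifs <;> simp
  have := congrArg (fun D : Derivation ℝ A A => D f) h
  simp only [Derivation.commutator_apply] at this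
  rw [← sub_eq_zero]; simpa using this

lemma OrdLE.pderiv {n : ℕ} {f : A} (hf : OrdLE n f) (k : ℕ) : OrdLE n (pderiv k f) := by
  intro i hi
  rw [pderiv_comm, hf i hi, map_zero]

/-- `∂_{k+1}` of `X_g f`, for `f` of order at most `n`. -/
lemma pderiv_Xg (n k : ℕ) (f : A) (hf : OrdLE n f) :
    pderiv (k + 1) (Xg f) = Xg (pderiv (k + 1) f) + (if 2 ≤ k then pderiv (k - 2) f else 0)
      + ∑ i ∈ Finset.range (n + 1), (i.choose k : A) * (pderiv i f * d^[i - k] h) := by
  rw [Xg_eq_sum n f hf, map_sum, Xg_eq_sum n _ (hf.pderiv (k + 1))]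
  have h1 : ∀ i ∈ Finset.range (n + 1), MvPolynomial.pderiv (k + 1) (MvPolynomial.pderiv i f * d^[i] g)
      = MvPolynomial.pderiv i (MvPolynomial.pderiv (k + 1) f) * d^[i] g
        + ((if i + 2 = k then MvPolynomial.pderiv i f else 0)
          + (i.choose k : A) * (MvPolynomial.pderiv i f * d^[i - k] h)) := by
    intro i _
    rw [Derivation.leibniz, pderiv_comm (k + 1) i, g, iter_d_add, map_add, pderiv_iter, iter_d_X,
      pderiv_X, Pi.single_apply]
    simp only [smul_eq_mul]
    by_cases hk : i + 2 = k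
    · subst hk
      rw [if_pos (show 3 + i = i + 2 + 1 by omega)]
      simp only [if_true]
      ring
    · rw [if_neg (show ¬ 3 + i = k + 1 by omega)]
      simp only [hk, if_false]
      ring
  rw [Finset.sum_congr rfl h1, Finset.sum_add_distrib, Finset.sum_add_distrib]
  have h2 : ∑ i ∈ Finset.range (n + 1), (if i + 2 = k then MvPolynomial.pderiv i f else 0)
      = (if 2 ≤ k then MvPolynomial.pderiv (k - 2) f else 0) := by
    by_cases hk : 2 ≤ k
    · rw [if_pos hk]
      by_cases hk2 : k - 2 ≤ n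
      · rw [Finset.sum_eq_single (k - 2)]
        · rw [if_pos (by omega)]
        · intro b _ hb
          rw [if_neg (by omega)]
        · intro hb
          simp at hb
          omega
      · rw [hf (k - 2) (by omega)]
        apply Finset.sum_eq_zero
        intro i hi
        simp at hi
        rw [if_neg (by omega)]
    · rw [if_neg hk]
      apply Finset.sum_eq_zero
      intro i hi
      rw [if_neg (by omega)]
  rw [h2]
  ring

lemma pderiv_ddd (k : ℕ) (f : A) : pderiv (k + 3) (d (d (d f)))
    = d (d (d (pderiv (k + 3) f))) + 3 * d (d (pderiv (k + 2) f)) + 3 * d (pderiv (k + 1) f)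
      + pderiv k f := by
  simp only [pderiv_d, map_add]
  ring

/-- membership in `H(g)` for `f` of order `≤ k+r`, derivative in `u_{k+1}`, `k ≥ 2`. -/
lemma eqn (k r : ℕ) (f : A) (hf : OrdLE (k + 2 + r) f) (h0 : star f g = 0) :
    Xg (pderiv (k + 3) f)
      + ∑ j ∈ Finset.range (r + 1), ((k + 2 + j).choose (k + 2) : A) *
          (pderiv (k + 2 + j) f * d^[j] h)
      - d (d (d (pderiv (k + 3) f))) - 3 * d (d (pderiv (k + 2) f)) - 3 * d (pderiv (k + 1) f)
      - d (h * pderiv (k + 3) f) - h * pderiv (k + 2) f = 0 := by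
  have h1 := congrArg (pderiv (k + 3)) h0
  rw [star_g, map_sub, map_sub, pderiv_ddd, pderiv_d, map_zero,
    show k + 3 = (k + 2) + 1 by ring, pderiv_Xg (k + 2 + r) (k + 2) f hf] at h1
  rw [show k + 2 + r + 1 = (k + 2) + (r + 1) by ring, Finset.sum_range_add] at h1
  have h3 : ∑ x ∈ Finset.range (k + 2), ((x.choose (k + 2) : ℕ) : A)
      * (pderiv x f * d^[x - (k + 2)] h) = 0 := by
    apply Finset.sum_eq_zero
    intro x hx
    simp at hx
    rw [Nat.choose_eq_zero_of_lt hx]
    simp
  rw [h3] at h1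
  have h4 : pderiv (k + 2 + 1) (h * f) = h * pderiv (k + 3) f := by
    rw [Derivation.leibniz, pderiv_h_of_ne _ (by omega)]; simp
  have h5 : pderiv (k + 2) (h * f) = h * pderiv (k + 2) f := by
    rw [Derivation.leibniz, pderiv_h_of_ne _ (by omega)]; simp
  rw [h4, h5] at h1
  simp only [show 2 ≤ k + 2 by omega, if_true, Nat.add_sub_cancel, Nat.add_sub_cancel_left] at h1
  rw [← h1]
  ring


lemma ordLE_of_d (q : A) (n : ℕ) (hq : OrdLE (n + 1) (d q)) : OrdLE n q := by
  obtain ⟨N, hN⟩ := exists_ordLE q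
  have key : ∀ k, ∀ i, n < i → N < i + k → pderiv i q = 0 := by
    intro k
    induction k with
    | zero => intro i _ hi; exact hN i (by omega)
    | succ k ih =>
      intro i hi1 hi
      have h1 := pderiv_d i q
      rw [hq (i + 1) (by omega), ih (i + 1) (by omega) (by omega)] at h1
      simpa using h1.symm
  intro i hi
  exact key (N + 1) i hi (by omega)

/-- `a u_2^3` is a total derivative only for `a = 0`. -/
lemma cube_not_exact (a : ℝ) (q : A) (hq : C a * X 2 ^ 3 = d q) : a = 0 := by
  have h1 : OrdLE 2 (d q) := by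
    rw [← hq]
    intro i hi
    rw [Derivation.leibniz, Derivation.leibniz_pow, pderiv_C, pderiv_X_of_ne (by omega)]
    simp
  have h2 := ordLE_of_d q 1 h1
  have h3 := pderiv_d 1 q
  rw [h2 2 (by omega), ← hq, map_zero, zero_add] at h3
  have h4 := congrArg (pderiv 2) h3
  rw [pderiv_comm 2 1 q, h2 2 (by omega), map_zero] at h4
  simp only [Derivation.leibniz, Derivation.leibniz_pow, pderiv_C, pderiv_X_self, smul_eq_mul,
    nsmul_eq_mul] at h4
  have h5 := congrArg (eval (fun _ => (1 : ℝ))) h4
  simp only [Nat.reduceAdd, Derivation.leibniz, Derivation.leibniz_pow, pderiv_C, pderiv_X_self,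
    smul_eq_mul, nsmul_eq_mul, map_add, map_mul, map_pow, eval_X, eval_C, map_natCast, map_zero,
    map_one] at h5
  norm_num at h5
  have h6 : eval (fun _ => (1 : ℝ)) (pderiv 2 (3 : A)) = 0 := by
    rw [show (3 : A) = C 3 from (map_ofNat C 3).symm, pderiv_C, map_zero]
  simpa [h6] using h5

lemma Xg_h : Xg h = d (C 8 * X 1 ^ 6 + C 12 * (X 1 ^ 2 * X 3) - C 12 * (X 1 * X 2 ^ 2))
    + C 12 * X 2 ^ 3 := by
  have e : ∀ r : ℝ, ∀ p : A, Xg (C r * p) = C r * Xg p := by
    intro r p
    rw [Derivation.leibniz]; simp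
  have e' : ∀ r : ℝ, ∀ p : A, d (C r * p) = C r * d p := by
    intro r p
    rw [Derivation.leibniz]; simp
  rw [h, e, map_sub, map_add, e', e', e']
  simp only [Derivation.leibniz, Derivation.leibniz_pow, Xg_X, smul_eq_mul, nsmul_eq_mul, d_X,
    Function.iterate_one, g, map_add, map_ofNat]
  push_cast
  ring

lemma d_C_mul (r : ℝ) (p : A) : d (C r * p) = C r * d p := by
  rw [Derivation.leibniz]; simp

lemma Xg_C_mul (r : ℝ) (p : A) : Xg (C r * p) = C r * Xg p := by
  rw [Derivation.leibniz]; simp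

/-- the leading coefficient of a cosymmetry is constant -/
lemma d_top (m : ℕ) (f : A) (hf : OrdLE (m + 1) f) (h0 : star f g = 0) :
    d (pderiv (m + 1) f) = 0 := by
  have h1 := eqn m 0 f (hf.mono (by omega)) h0
  rw [hf (m + 3) (by omega), hf (m + 2) (by omega)] at h1
  simp only [map_zero, mul_zero, sub_zero] at h1
  rw [Finset.sum_range_one] at h1
  rw [show m + 2 + 0 = m + 2 by ring, hf (m + 2) (by omega)] at h1
  simp only [map_zero, mul_zero, zero_mul, zero_sub, add_zero, zero_add, neg_eq_zero] at h1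
  have h3 : (3 : A) ≠ 0 := by norm_num
  exact (mul_eq_zero.1 h1).resolve_left h3

/-- no cosymmetry has order `≥ 5` -/
lemma no_high (m : ℕ) (f : A) (hf : OrdLE (m + 5) f) (h0 : star f g = 0) :
    OrdLE (m + 4) f := by
  have h3 : (3 : A) ≠ 0 := by norm_num
  obtain ⟨c, hc⟩ : ∃ c : ℝ, pderiv (m + 5) f = C c :=
    ⟨_, eq_C_of_d _ (d_top (m + 4) f hf h0)⟩
  have e2 := eqn (m + 3) 0 f hf h0
  rw [hf (m + 3 + 3) (by omega), Finset.sum_range_one,
    show m + 3 + 2 + 0 = m + 5 by ring, show m + 3 + 2 = m + 5 by ring, hc,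
    show m + 3 + 1 = m + 4 by ring] at e2
  simp only [map_zero, Nat.choose_self, Nat.cast_one, one_mul, Function.iterate_zero, id_eq,
    derivation_C, mul_zero, sub_zero, zero_add] at e2
  have e2' : d (pderiv (m + 4) f) = 0 := by
    have : (3 : A) * d (pderiv (m + 4) f) = 0 := by
      rw [← neg_eq_zero, ← e2]; ring
    exact (mul_eq_zero.1 this).resolve_left h3
  obtain ⟨b, hb⟩ : ∃ b : ℝ, pderiv (m + 4) f = C b := ⟨_, eq_C_of_d _ e2'⟩
  have e3 := eqn (m + 2) 1 f hf h0
  simp only [Finset.sum_range_succ, Finset.sum_range_zero, show m + 2 + 3 = m + 5 by ring,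
    show m + 2 + 2 + 0 = m + 4 by ring, show m + 2 + 2 + 1 = m + 5 by ring,
    show m + 2 + 2 = m + 4 by ring, show m + 2 + 1 = m + 3 by ring, hc, hb, derivation_C,
    map_zero, Function.iterate_zero, Function.iterate_one, id_eq, Nat.choose_self,
    Nat.choose_succ_self_right, mul_comm h (C c), d_C_mul] at e3
  push_cast at e3
  have e3' : d (3 * pderiv (m + 3) f - C ((m + 4 : ℝ) * c) * h) = 0 := by
    have h33 : (3 : A) = C 3 := (map_ofNat C 3).symm
    rw [map_sub, d_C_mul, h33, d_C_mul, ← h33, C_mul, C_add, map_natCast, map_ofNat,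
      ← neg_eq_zero, ← e3]
    ring
  obtain ⟨e, he⟩ : ∃ e : ℝ, 3 * pderiv (m + 3) f - C ((m + 4 : ℝ) * c) * h = C e :=
    ⟨_, eq_C_of_d _ e3'⟩
  have he' : 3 * pderiv (m + 3) f = C ((m + 4 : ℝ) * c) * h + C e := by
    rw [← he]; ring
  have e5 := eqn m 3 f hf h0
  simp only [Finset.sum_range_succ, Finset.sum_range_zero, show m + 2 + 0 = m + 2 by ring,
    show m + 2 + 1 = m + 3 by ring, show m + 2 + 2 = m + 4 by ring,
    show m + 2 + 3 = m + 5 by ring, hc, hb, Function.iterate_succ, Function.iterate_zero,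
    Function.comp, id_eq, Nat.choose_self] at e5
  rw [show (m + 3).choose (m + 2) = m + 3 from Nat.choose_succ_self_right (m + 2)] at e5
  generalize ((m + 4).choose (m + 2)) = K2 at e5
  generalize ((m + 5).choose (m + 2)) = K3 at e5
  generalize pderiv (m + 3) f = F at e5 he'
  generalize pderiv (m + 2) f = G at e5
  generalize pderiv (m + 1) f = G1 at e5
  have hX : 3 * Xg F = C ((m + 4 : ℝ) * c) * Xg h := by
    have : Xg (3 * F) = Xg (C ((m + 4 : ℝ) * c) * h + C e) := by rw [he']
    rw [map_add, Xg_C_mul, derivation_C, add_zero, show (3 : A) = C 3 from (map_ofNat C 3).symm,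
      Xg_C_mul] at this
    rw [show (3 : A) = C 3 from (map_ofNat C 3).symm, this]
  have hQ : C ((m + 4 : ℝ) * c * 12) * X 2 ^ 3 =
      d (C (-(m + 3 : ℝ) * (m + 4) * c / 2) * h ^ 2 - C ((m + 3 : ℝ) * e) * h
        - C (3 * K2 * b) * d h - C (3 * K3 * c) * d (d h) + d (d (C 3 * F)) + C 9 * d G
        + C 9 * G1 + C 3 * (h * F)
        - C ((m + 4 : ℝ) * c) *
          (C 8 * X 1 ^ 6 + C 12 * (X 1 ^ 2 * X 3) - C 12 * (X 1 * X 2 ^ 2))) := by
    rw [Xg_h] at hX
    have hh : d (h ^ 2) = 2 * h * d h := by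
      rw [Derivation.leibniz_pow]; simp; ring
    have half : (2 : A) * C (1 / 2 : ℝ) = 1 := by
      rw [show (2 : A) = C 2 from (map_ofNat C 2).symm, ← C_mul]; norm_num
    rw [show (-(m + 3 : ℝ) * (m + 4) * c / 2) = (-(m + 3 : ℝ) * (m + 4) * c) * (1 / 2) by ring]
    simp only [map_sub, map_add, d_C_mul, hh] at hX ⊢
    simp only [C_mul, C_add, C_neg, map_natCast, map_ofNat] at hX e5 he' ⊢
    push_cast at e5
    linear_combination (-1 : A) * hX + 3 * e5 - ((m : A) + 3) * d h * he'
      + ((m : A) + 3) * (m + 4) * C c * h * d h * half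
  have h12 := cube_not_exact _ _ hQ
  have hm : ((m : ℝ) + 4) ≠ 0 := by positivity
  have hc0 : c = 0 := by
    rcases mul_eq_zero.1 h12 with h | h
    · rcases mul_eq_zero.1 h with h | h
      · exact absurd h hm
      · exact h
    · norm_num at h
  intro i hi
  rcases Nat.lt_or_ge (m + 5) i with h1 | h1
  · exact hf i h1
  · have : i = m + 5 := by omega
    rw [this, hc, hc0, map_zero]


lemma star_add_left (f₁ f₂ g' : A) : star (f₁ + f₂) g' = star f₁ g' + star f₂ g' := by
  obtain ⟨n₁, h₁⟩ := exists_ordLE f₁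
  obtain ⟨n₂, h₂⟩ := exists_ordLE f₂
  obtain ⟨n₃, h₃⟩ := exists_ordLE g'
  have k₁ := h₁.mono (show n₁ ≤ n₁ + n₂ + n₃ by omega)
  have k₂ := h₂.mono (show n₂ ≤ n₁ + n₂ + n₃ by omega)
  have k₃ := h₃.mono (show n₃ ≤ n₁ + n₂ + n₃ by omega)
  have k₁₂ : OrdLE (n₁ + n₂ + n₃) (f₁ + f₂) := by
    intro i hi
    rw [map_add, k₁ i hi, k₂ i hi, add_zero]
  rw [star_support _ _ _ k₁ k₃, star_support _ _ _ k₂ k₃, star_support _ _ _ k₁₂ k₃,
    ← Finset.sum_add_distrib]
  apply Finset.sum_congr rfl
  intro i _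
  rw [map_add, add_mul f₁ f₂, iter_d_add]
  ring

lemma iter_d_smul (i : ℕ) (c : ℝ) (p : A) : d^[i] (c • p) = c • d^[i] p := by
  induction i generalizing p with
  | zero => rfl
  | succ i ih => simp only [Function.iterate_succ_apply, Derivation.map_smul, ih]

lemma star_smul_left (c : ℝ) (f g' : A) : star (c • f) g' = c • star f g' := by
  obtain ⟨n₁, h₁⟩ := exists_ordLE f
  obtain ⟨n₃, h₃⟩ := exists_ordLE g'
  have k₁ := h₁.mono (show n₁ ≤ n₁ + n₃ by omega)
  have k₃ := h₃.mono (show n₃ ≤ n₁ + n₃ by omega)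
  have k₂ : OrdLE (n₁ + n₃) (c • f) := by
    intro i hi
    rw [Derivation.map_smul, k₁ i hi, smul_zero]
  rw [star_support _ _ _ k₁ k₃, star_support _ _ _ k₂ k₃, Finset.smul_sum]
  apply Finset.sum_congr rfl
  intro i _
  rw [Derivation.map_smul, smul_mul_assoc c f, iter_d_smul, smul_mul_assoc, smul_add, mul_smul_comm]

/-- `H(g') = {f : f * g' = 0}`, a real subspace of `A`. -/
noncomputable def H (g' : A) : Submodule ℝ A where
  carrier := {f | star f g' = 0}
  add_mem' := by
    intro a b ha hb
    simp only [Set.mem_ofPred_eq] at *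
    rw [star_add_left, ha, hb, add_zero]
  zero_mem' := by
    have := star_smul_left 0 0 g'
    simpa using this
  smul_mem' := by
    intro c f hf
    simp only [Set.mem_ofPred_eq] at *
    rw [star_smul_left, hf, smul_zero]

lemma ordLE_four (f : A) (h0 : star f g = 0) : OrdLE 4 f := by
  obtain ⟨n, hn⟩ := exists_ordLE f
  have key : ∀ k, OrdLE (4 + k) f → OrdLE 4 f := by
    intro k
    induction k with
    | zero => exact fun h => h
    | succ k ih =>
      intro h
      apply ih
      have := no_high k f (h.mono (by omega)) h0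
      exact this.mono (by omega)
  exact key n (hn.mono (by omega))

lemma order_zero (f : A) (hf : OrdLE 0 f) (h0 : star f g = 0) : f = 0 := by
  have h1 := congrArg (pderiv 2) h0
  rw [star_g, map_sub, map_sub, show (2 : ℕ) = 1 + 1 by rfl, pderiv_Xg 0 1 f hf] at h1
  have f1 := hf 1 (by omega)
  have f2 := hf 2 (by omega)
  have p2 : ∀ q : A, pderiv 2 (d q) = d (pderiv 2 q) + pderiv 1 q := pderiv_d 1
  have p1 : ∀ q : A, pderiv 1 (d q) = d (pderiv 1 q) + pderiv 0 q := pderiv_d 0
  have e1 : pderiv 2 (d (d (d f))) = 3 * d (pderiv 0 f) := by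
    simp only [p2, p1, pderiv_zero_d, f1, f2, map_add, map_zero]
    ring
  have e2 : pderiv 2 (d (h * f)) = C 12 * X 1 ^ 2 * f := by
    rw [p2, Derivation.leibniz, Derivation.leibniz, f1, f2, pderiv_h_of_ne 2 (by omega),
      pderiv_h_one]
    simp only [mul_zero, add_zero, zero_add, map_zero, smul_eq_mul]
    ring
  rw [e1, e2] at h1
  have e3 : d (pderiv 0 f) = pderiv 0 (pderiv 0 f) * X 1 := by
    have := derivation_eqOn_supported (D₁ := d) (D₂ := (X 1 : A) • (pderiv 0 : Derivation ℝ A A))
      (s := {i | i ≤ 0}) (f := pderiv 0 f) ?_ ((ordLE_iff 0 _).1 (hf.pderiv 0))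
    · rw [this]; simp [mul_comm]
    · intro i hi
      simp at hi
      subst hi
      simp [d_X]
  rw [e3] at h1
  simp only [f2, map_zero, show ¬ (2 ≤ 1) by omega, if_false, Finset.sum_range_one, zero_add,
    Nat.reduceAdd, Nat.choose_eq_zero_of_lt (show 0 < 1 by omega), Nat.cast_zero, zero_mul] at h1
  have h2 : X 1 * (pderiv 0 (pderiv 0 f) + C 4 * X 1 * f) = 0 := by
    have h33 : (3 : A) ≠ 0 := by norm_num
    apply (mul_eq_zero.1 (_ : (3 : A) * _ = 0)).resolve_left h33
    simp only [map_ofNat] at h1 ⊢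
    linear_combination (-1 : A) * h1
  have h3 := (mul_eq_zero.1 h2).resolve_left (X_ne_zero 1)
  have h4 := congrArg (pderiv 1) h3
  rw [map_add, pderiv_comm 1 0, pderiv_comm 1 0 f, f1] at h4
  simp only [map_zero, zero_add, Derivation.leibniz, f1, pderiv_C, pderiv_X_self, smul_eq_mul] at h4
  simp only [map_ofNat] at h4
  have h44 : (4 : A) ≠ 0 := by norm_num
  apply (mul_eq_zero.1 (_ : (4 : A) * _ = 0)).resolve_left h44
  linear_combination h4

/-- the four leading constants determine an element of `H(g)` -/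
noncomputable def Phi : H g →ₗ[ℝ] (Fin 4 → ℝ) where
  toFun f := fun i => constantCoeff (pderiv (i.val + 1) (f : A))
  map_add' := by
    intro x y
    ext i
    simp
  map_smul' := by
    intro c x
    ext i
    simp [Derivation.map_smul, constantCoeff_smul]

lemma drop_order (m : ℕ) (f : A) (hf : OrdLE (m + 1) f) (h0 : star f g = 0)
    (hc : constantCoeff (pderiv (m + 1) f) = 0) : OrdLE m f := by
  have h1 := eq_C_of_d _ (d_top m f hf h0)
  rw [hc, map_zero] at h1
  intro i hi
  rcases Nat.lt_or_ge (m + 1) i with h2 | h2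
  · exact hf i h2
  · have : i = m + 1 := by omega
    rw [this, h1]

lemma Phi_injective : Function.Injective Phi := by
  rw [← LinearMap.ker_eq_bot, LinearMap.ker_eq_bot']
  intro f hf
  have h0 : star (f : A) g = 0 := f.2
  have e : ∀ i : Fin 4, constantCoeff (pderiv (i.val + 1) (f : A)) = 0 := by
    intro i
    exact congrFun hf i
  have o4 := ordLE_four _ h0
  have o3 := drop_order 3 _ o4 h0 (e 3)
  have o2 := drop_order 2 _ o3 h0 (e 2)
  have o1 := drop_order 1 _ o2 h0 (e 1)
  have o0 := drop_order 0 _ o1 h0 (e 0)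
  ext1
  exact order_zero _ o0 h0

lemma finite_H : FiniteDimensional ℝ (H g) :=
  FiniteDimensional.of_injective Phi Phi_injective

/-- `d g` is a cosymmetry -/
lemma star_dg : star (d g) g = 0 := by
  rw [star_g]
  have hX : ∀ p : A, Xg (d p) = d (Xg p) := by
    intro p
    have h : ⁅Xg, d⁆ = 0 := by
      apply derivation_ext
      intro i
      rw [Derivation.commutator_apply, d_X, Xg_X, Xg_X, Function.iterate_succ_apply']
      simp
    have := congrArg (fun D : Derivation ℝ A A => D p) h
    simp only [Derivation.commutator_apply] at this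
    rw [← sub_eq_zero]; simpa using this
  rw [hX]
  have hg : Xg g = d (d (d g)) + h * d g := by
    rw [Xg_eq_sum 3 g ordLE_g]
    simp [Finset.sum_range_succ, pderiv_g]
    ring
  rw [hg, map_add]
  ring

/-- **Disproof of Q1.** There are `n > m > 1`, `f` of order `n` and `g` of order `m` with
`f * g = 0` for which `H(g)` is finite-dimensional. -/
theorem result : ∃ (n m : ℕ) (f g : A), 1 < m ∧ m < n ∧
    f ∈ supported ℝ {i | i ≤ n} ∧ pderiv n f ≠ 0 ∧
    g ∈ supported ℝ {i | i ≤ m} ∧ pderiv m g ≠ 0 ∧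
    star f g = 0 ∧ FiniteDimensional ℝ (H g) := by
  refine ⟨4, 3, d g, g, by norm_num, by norm_num, ?_, ?_, (ordLE_iff 3 g).1 ordLE_g, ?_,
    star_dg, finite_H⟩
  · rw [← ordLE_iff]
    intro i hi
    obtain ⟨j, rfl⟩ : ∃ j, i = j + 1 := ⟨i - 1, by omega⟩
    rw [pderiv_d, ordLE_g (j + 1) (by omega), ordLE_g j (by omega)]
    simp
  · rw [pderiv_d, pderiv_g, pderiv_g]
    simp
  · rw [pderiv_g]
    simp

end Pool.Agent.Results.MP_c360fa_mp.FiniteH
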